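import Pool.Agent.helper63.Dg4.Spec

/-!
# Row CEK of project dg4

It is c.e. that a class `K ℓ a γ` with finitely many prescribed values is empty.
-/

namespace Pool.Agent.helper63.Dg4

open Encodable Pool.Agent.helper63.Diag

/-- the finite piece `ρ` of a colouring shows that the entry `y` is allowed at position `i` -/
def CEK_Ok (ab : List ℕ) (fl : ℕ → ℕ) (ρ : List ℕ) (i y : ℕ) : Prop :=
  (¬ ab.getD (col i) 0 = 1 ∨ y = 0) ∧
  (¬ ab.getD (col i) 0 = 2 ∨
    (y = 0 ∨ ((Nat.pair (col i) (y - 1) < ρ.length ∧ Nat.pair (col i) (el i) < ρ.length) ∧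
      ρ.getD (Nat.pair (col i) (y - 1)) 0 = fl (ρ.getD (Nat.pair (col i) (el i)) 0))))

/-- the parameters -/
abbrev CEK_T : Type := ℕ × ℕ × List ℕ × List (ℕ × ℕ)

/-- the finite piece `ρ` of a colouring, together with `τ`, kills the colouring -/
def CEK_A (p : Cond) (D : List ℕ → ℕ × ℕ → Prop) (q : (CEK_T × List ℕ) × List ℕ) : Prop :=
  ((q.2.take p.σ.length = p.σ ∧ q.2.length ≤ q.1.2.length) ∧
    ∀ i < q.2.length, ¬ p.σ.length ≤ i ∨ CEK_Ok p.ab p.fl q.1.2 i (q.2.getD i 0)) ∧
  ∃ z < q.1.1.2.2.1.length, D q.2 (q.1.1.1, z) ∧ q.1.1.2.2.1.getD z 0 = q.1.1.2.1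

/-- the finite piece `ρ` of a colouring disagrees with a prescribed value -/
def CEK_B (q : CEK_T × List ℕ) : Prop :=
  ∃ b ∈ q.1.2.2.2, b.1 < q.2.length ∧ ¬ q.2.getD b.1 0 = b.2

theorem CEK_primrec_col : Primrec col := Primrec.fst.comp Primrec.unpair

theorem CEK_primrec_el : Primrec el :=
  Primrec.fst.comp (Primrec.unpair.comp (Primrec.snd.comp Primrec.unpair))

theorem CEK_prim_Ok {α : Type} [Primcodable α] {fl : ℕ → ℕ} (hfl : Primrec fl) (ab : List ℕ)
    {r : α → List ℕ} {i y : α → ℕ} (hr : Primrec r) (hi : Primrec i) (hy : Primrec y) :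
    PrimrecPred (fun a => CEK_Ok ab fl (r a) (i a) (y a)) := by
  unfold CEK_Ok
  have hc : Primrec (fun a => col (i a)) := CEK_primrec_col.comp hi
  have he : Primrec (fun a => el (i a)) := CEK_primrec_el.comp hi
  have hab : Primrec (fun a => ab.getD (col (i a)) 0) :=
    (Primrec.list_getD 0).comp (Primrec.const ab) hc
  have h1 : Primrec (fun a => Nat.pair (col (i a)) (y a - 1)) :=
    Primrec₂.natPair.comp hc (Primrec.nat_sub.comp hy (Primrec.const 1))
  have h2 : Primrec (fun a => Nat.pair (col (i a)) (el (i a))) := Primrec₂.natPair.comp hc he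
  have hl : Primrec (fun a => (r a).length) := Primrec.list_length.comp hr
  refine PrimrecPred.and (PrimrecPred.or (PrimrecPred.not ?_) ?_)
    (PrimrecPred.or (PrimrecPred.not ?_) (PrimrecPred.or ?_
      (PrimrecPred.and (PrimrecPred.and ?_ ?_) ?_)))
  · exact Primrec.eq.comp hab (Primrec.const 1)
  · exact Primrec.eq.comp hy (Primrec.const 0)
  · exact Primrec.eq.comp hab (Primrec.const 2)
  · exact Primrec.eq.comp hy (Primrec.const 0)
  · exact Primrec.nat_lt.comp h1 hl
  · exact Primrec.nat_lt.comp h2 hl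
  · exact Primrec.eq.comp ((Primrec.list_getD 0).comp hr h1)
      (hfl.comp ((Primrec.list_getD 0).comp hr h2))

theorem CEK_prim_A (p : Cond) {D : List ℕ → ℕ × ℕ → Prop} (hD : PrimrecRel D) :
    PrimrecPred (CEK_A p D) := by
  have hτ : Primrec (fun q : (CEK_T × List ℕ) × List ℕ => q.2) := Primrec.snd
  have hρ : Primrec (fun q : (CEK_T × List ℕ) × List ℕ => q.1.2) := Primrec.snd.comp Primrec.fst
  have ht : Primrec (fun q : (CEK_T × List ℕ) × List ℕ => q.1.1) := Primrec.fst.comp Primrec.fst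
  have hγ : Primrec (fun q : (CEK_T × List ℕ) × List ℕ => q.1.1.2.2.1) :=
    Primrec.fst.comp (Primrec.snd.comp (Primrec.snd.comp ht))
  have ha : Primrec (fun q : (CEK_T × List ℕ) × List ℕ => q.1.1.2.1) :=
    Primrec.fst.comp (Primrec.snd.comp ht)
  have hl : Primrec (fun q : (CEK_T × List ℕ) × List ℕ => q.1.1.1) := Primrec.fst.comp ht
  refine PrimrecPred.and (PrimrecPred.and (PrimrecPred.and ?_ ?_) ?_) ?_
  · exact Primrec.eq.comp (Primrec.list_take.comp (Primrec.const _) hτ) (Primrec.const p.σ)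
  · exact Primrec.nat_le.comp (Primrec.list_length.comp hτ) (Primrec.list_length.comp hρ)
  · refine PRalllt (R := fun (q : (CEK_T × List ℕ) × List ℕ) (i : ℕ) =>
      ¬ p.σ.length ≤ i ∨ CEK_Ok p.ab p.fl q.1.2 i (q.2.getD i 0)) ?_
      (Primrec.list_length.comp hτ)
    have hi : Primrec (fun q : ((CEK_T × List ℕ) × List ℕ) × ℕ => q.2) := Primrec.snd
    refine PrimrecPred.or (PrimrecPred.not ?_) ?_
    · exact Primrec.nat_le.comp (Primrec.const _) hi
    · exact CEK_prim_Ok p.hfl p.ab (hρ.comp Primrec.fst) hi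
        ((Primrec.list_getD 0).comp (hτ.comp Primrec.fst) hi)
  · refine PRexlt (R := fun (q : (CEK_T × List ℕ) × List ℕ) (z : ℕ) =>
      D q.2 (q.1.1.1, z) ∧ q.1.1.2.2.1.getD z 0 = q.1.1.2.1) ?_
      (Primrec.list_length.comp hγ)
    refine PrimrecPred.and ?_ ?_
    · exact hD.comp (hτ.comp Primrec.fst) (Primrec.pair (hl.comp Primrec.fst) Primrec.snd)
    · exact Primrec.eq.comp ((Primrec.list_getD 0).comp (hγ.comp Primrec.fst) Primrec.snd)
        (ha.comp Primrec.fst)

theorem CEK_prim_B : PrimrecPred CEK_B := by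
  have hβ : Primrec (fun q : CEK_T × List ℕ => q.1.2.2.2) :=
    Primrec.snd.comp (Primrec.snd.comp (Primrec.snd.comp Primrec.fst))
  refine PRex (R := fun (q : CEK_T × List ℕ) (b : ℕ × ℕ) =>
    b.1 < q.2.length ∧ ¬ q.2.getD b.1 0 = b.2) ?_ hβ
  have hρ : Primrec (fun q : (CEK_T × List ℕ) × (ℕ × ℕ) => q.1.2) := Primrec.snd.comp Primrec.fst
  have h1 : Primrec (fun q : (CEK_T × List ℕ) × (ℕ × ℕ) => q.2.1) := Primrec.fst.comp Primrec.snd
  have h2 : Primrec (fun q : (CEK_T × List ℕ) × (ℕ × ℕ) => q.2.2) := Primrec.snd.comp Primrec.snd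
  refine PrimrecPred.and ?_ (PrimrecPred.not ?_)
  · exact Primrec.nat_lt.comp h1 (Primrec.list_length.comp hρ)
  · exact Primrec.eq.comp ((Primrec.list_getD 0).comp hρ h1) h2

theorem CEK_bound (f : ℕ → ℕ) (n : ℕ) : ∃ B, ∀ i < n, f i < B := by
  induction n with
  | zero => exact ⟨0, by simp⟩
  | succ n ih =>
    obtain ⟨B, hB⟩ := ih
    refine ⟨max B (f n + 1), fun i hi => ?_⟩
    rcases Nat.lt_succ_iff_lt_or_eq.1 hi with h | h
    · exact lt_of_lt_of_le (hB i h) (le_max_left _ _)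
    · subst h
      exact lt_of_lt_of_le (Nat.lt_succ_self _) (le_max_right _ _)

theorem CEK_mem_iff (p : Cond) (D : List ℕ → ℕ × ℕ → Prop) (t : CEK_T) (v : ℕ → ℕ) :
    v ∈ cls p.n (fun ρ => p.Bad ρ ∨ ((∃ τ, CEK_A p D ((t, ρ), τ)) ∨ CEK_B (t, ρ))) ↔
      KF p D t.1 t.2.1 t.2.2.1 v ∧ ∀ b ∈ t.2.2.2, v b.1 = b.2 := by
  constructor
  · rintro ⟨h1, h2⟩
    refine ⟨⟨⟨h1, fun k hk => h2 k (Or.inl hk)⟩, ?_⟩, ?_⟩
    · rintro τ ⟨hτ, hc⟩ z hz hD hza
      obtain ⟨B1, hB1⟩ := CEK_bound (fun i => Nat.pair (col i) (τ.getD i 0 - 1)) τ.length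
      obtain ⟨B2, hB2⟩ := CEK_bound (fun i => Nat.pair (col i) (el i)) τ.length
      have k1 : τ.length ≤ max τ.length (max B1 B2) := le_max_left _ _
      have k2 : B1 ≤ max τ.length (max B1 B2) := le_trans (le_max_left _ _) (le_max_right _ _)
      have k3 : B2 ≤ max τ.length (max B1 B2) := le_trans (le_max_right _ _) (le_max_right _ _)
      refine h2 (max τ.length (max B1 B2)) (Or.inr (Or.inl ⟨τ, ⟨⟨hτ, ?_⟩, fun i hi => ?_⟩,
        z, hz, hD, hza⟩))
      · rw [res_length]; exact k1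
      · by_cases h : p.σ.length ≤ i
        · right
          obtain ⟨o1, o2⟩ := hc i h hi
          refine ⟨?_, ?_⟩
          · by_cases hab : p.ab.getD (col i) 0 = 1
            · exact Or.inr (o1 hab)
            · exact Or.inl hab
          · by_cases hab : p.ab.getD (col i) 0 = 2
            · right
              rcases o2 hab with h0 | h0
              · exact Or.inl h0
              · right
                have a1 : Nat.pair (col i) (τ.getD i 0 - 1) < max τ.length (max B1 B2) :=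
                  lt_of_lt_of_le (hB1 i hi) k2
                have a2 : Nat.pair (col i) (el i) < max τ.length (max B1 B2) :=
                  lt_of_lt_of_le (hB2 i hi) k3
                refine ⟨⟨?_, ?_⟩, ?_⟩
                · rw [res_length]; exact a1
                · rw [res_length]; exact a2
                · rw [res_getD v a1, res_getD v a2]; exact h0
            · exact Or.inl hab
        · left; exact h
    · intro b hb
      by_contra hcon
      refine h2 (b.1 + 1) (Or.inr (Or.inr ⟨b, hb, ?_, ?_⟩))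
      · rw [res_length]; exact Nat.lt_succ_self _
      · rw [res_getD v (Nat.lt_succ_self _)]; exact hcon
  · rintro ⟨⟨⟨h1, h2⟩, h3⟩, h4⟩
    refine ⟨h1, fun k hk => ?_⟩
    rcases hk with hk | ⟨τ, ⟨⟨hτ, hle⟩, hi⟩, z, hz, hD, hza⟩ | ⟨b, hb, hlt, hne⟩
    · exact h2 k hk
    · refine h3 τ ⟨hτ, ?_⟩ z hz hD hza
      intro i hi1 hi2
      rcases hi i hi2 with h | ⟨o1, o2⟩
      · exact absurd hi1 h
      · refine ⟨fun hab => ?_, fun hab => ?_⟩
        · rcases o1 with h | h
          · exact absurd hab h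
          · exact h
        · rcases o2 with h | h | ⟨⟨a1, a2⟩, h⟩
          · exact absurd hab h
          · exact Or.inl h
          · right
            rw [res_length] at a1 a2
            rwa [res_getD v a1, res_getD v a2] at h
    · rw [res_length] at hlt
      rw [res_getD v hlt] at hne
      exact hne (h4 b hb)

theorem CEK : CEK_stmt := by
  intro p D hD
  have h1 : CE (fun q : CEK_T × List ℕ =>
      p.Bad q.2 ∨ ((∃ τ, CEK_A p D (q, τ)) ∨ CEK_B q)) := by
    refine S1.or (p.re.comp Primrec.snd) (S1.or ?_ (S1.prim CEK_prim_B))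
    exact S1.ex (A := fun (q : CEK_T × List ℕ) (τ : List ℕ) => CEK_A p D (q, τ))
      (S1.prim (CEK_prim_A p hD))
  have h2 := S1.empty (X := fun _ => 0) (n := p.n)
    (Bad := fun (t : CEK_T) (ρ : List ℕ) =>
      p.Bad ρ ∨ ((∃ τ, CEK_A p D ((t, ρ), τ)) ∨ CEK_B (t, ρ))) h1
  refine h2.of_iff (fun t => ?_)
  refine forall_congr' (fun v => ?_)
  exact not_congr (CEK_mem_iff p D t v)

end Pool.Agent.helper63.Dg4
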